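import Pool.Agent.H752.KM.Defs
import Pool.Agent.H620R2.Gauge.M

/-!
# Auxiliary notions for the gauge theorem on the measure of `NP`
-/

namespace Pool.Agent.H752.KM

open Pool.Agent.NPC Pool.Agent.H620R2.Gauge

open Classical in
/-- the first `l` bits of the characteristic sequence of the property `L` of positions -/
noncomputable def Wd (L : ℕ → Prop) (l : ℕ) : List Bool := (List.range l).map fun j => decide (L j)

open Classical in
/-- The probability of the event `E` when the bits `η i` are independent and `η i` is `true` with
probability `p i`. -/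
noncomputable def PrB {ι : Type} [Fintype ι] (p : ι → ℝ) (E : (ι → Bool) → Prop) : ℝ :=
  ∑ η : ι → Bool, if E η then ∏ i, (if η i then p i else 1 - p i) else 0

/-- the question about the bit number `i` of the slot `w` in the block of `x` -/
def qst (x w : List Bool) (i : ℕ) : List Bool := pairBits x (w ++ List.replicate i true)

/-- The content `v` (a sequence of `3 m` bits, read as a number) of the slot `w` is a hit: this has
probability about `1 / (2 ^ m + w + 1)`. -/
def HitV (m : ℕ) (w : List Bool) (v : ℕ → Bool) : Prop :=
  valB ((List.range (3 * m)).map v) * (valB (w ++ [true]) + 1) < 2 ^ (3 * m)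

/-- the probability of a hit -/
noncomputable def prv (m : ℕ) (w : List Bool) : ℝ :=
  (Nat.card {v : Fin (3 * m) → Bool // valB (List.ofFn v) * (valB (w ++ [true]) + 1) < 2 ^ (3 * m)} :
    ℝ) / 2 ^ (3 * m)

/-- The test language: `x` is in it if and only if one of the `2 ^ P(|x|)` slots of its block
contains a hit. -/
def TL (P : Polynomial ℕ) (A : Oracle) : Set (List Bool) :=
  {x | ∃ w : List Bool, w.length = P.eval x.length ∧
    HitV (P.eval x.length) w (fun i => A (qst x w i))}

/-- the slots of the blocks of the strings in `X` -/
abbrev Slot (P : Polynomial ℕ) (X : Finset (List Bool)) : Type :=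
  Σ x : {x // x ∈ X}, (Fin (P.eval x.1.length) → Bool)

/-- the string `x` of a slot -/
def Slot.x {P : Polynomial ℕ} {X : Finset (List Bool)} (s : Slot P X) : List Bool := s.1.1

/-- the string `w` of a slot -/
def Slot.w {P : Polynomial ℕ} {X : Finset (List Bool)} (s : Slot P X) : List Bool := List.ofFn s.2

/-- the parameter `m` of a slot -/
def Slot.m {P : Polynomial ℕ} {X : Finset (List Bool)} (s : Slot P X) : ℕ :=
  P.eval s.1.1.length

open Classical in
/-- The oracle `B` with the slots of the blocks in `X` overwritten: the slot `s` contains `vp s` if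
`η s` is true and `vm s` otherwise. -/
noncomputable def mrg {P : Polynomial ℕ} {X : Finset (List Bool)} (B : Oracle)
    (vm vp : Slot P X → ℕ → Bool) (η : Slot P X → Bool) : Oracle := fun y =>
  if h : ∃ z : Slot P X × ℕ, z.2 < 3 * z.1.m ∧ y = qst z.1.x z.1.w z.2 then
    (if η h.choose.1 then vp h.choose.1 h.choose.2 else vm h.choose.1 h.choose.2)
  else B y

open Classical in
/-- the number coded by a string -/
noncomputable def dyv (z : List Bool) : ℝ := if h : ∃ a, Dyadic z a then h.choose else 0

/-- the precision used at the prefix `w` for the density function number `k` -/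
def prec (k : ℕ) (w : List Bool) : ℕ := 2 * w.length + k + 3

/-- the value `F` gives for the density function number `k` at `w`, rounded up -/
noncomputable def cap (F : List Bool → List Bool) (k : ℕ) (w : List Bool) : ℝ :=
  max 0 (dyv (F (inp k (prec k w) w))) + 4 * 2⁻¹ ^ prec k w

/-- the number of elements of `T` smaller than `n` -/
noncomputable def rk (T : Set ℕ) (n : ℕ) : ℕ := Set.ncard {j ∈ T | j < n}

/-- the label of the element `n` of `T` -/
noncomputable def lab (T : Set ℕ) (n : ℕ) : ℕ := (Nat.unpair (rk T n)).1

/-- the string `1 ^ (2 ^ n)` -/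
def uu (n : ℕ) : List Bool := List.replicate (2 ^ n) true

/-- the language `L` is predicted, on the strings `0^n` with `n` in `T` large enough with a certain
label, by the answers of `A` to the questions `1 ^ (2 ^ n)` -/
def Predicted (T : Set ℕ) (A : Oracle) (L : Set (List Bool)) : Prop :=
  ∃ i n₀ : ℕ, ∀ n ≥ n₀, n ∈ T → lab T n = i → (List.replicate n false ∈ L ↔ A (uu n) = true)

open Classical in
/-- the factor of the bet number `n` for the label `i` (twice the factor) -/
noncomputable def fac (T : Set ℕ) (A : Oracle) (w : List Bool) (n i : ℕ) : ℕ :=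
  if n ∈ T ∧ 2 ^ n ≤ w.length then
    (if lab T n = i then (if w.getD (2 ^ n - 1) false = A (uu n) then 3 else 1) else 2)
  else 2

/-- the martingale -/
noncomputable def mart (T : Set ℕ) (A : Oracle) (w : List Bool) : ℝ :=
  2⁻¹ ^ w.length + ∑ i ∈ Finset.range w.length,
    2⁻¹ ^ (i + 1) * ∏ n ∈ Finset.range w.length, (fac T A w n i : ℝ) / 2

end Pool.Agent.H752.KM
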