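import Pool.Agent.H620R2.Gauge2.Defs
import Pool.Agent.NPC.Num

/-!
# Resource-bounded measure relative to an oracle

(Continues `Pool.Agent.H620R2.Gauge.Defs` and `Pool.Agent.H620R2.Gauge2.Defs`: oracle algorithms,
polynomial time and space, `NP` relative to an oracle, null sets of oracles for a gauge.)
-/

namespace Pool.Agent.H752.KM

open Pool.Agent.NPC Pool.Agent.H620R2.Gauge

/-- The time bounds of the classes `p` and `P`: polynomials. -/
def polyT : Set (ℕ → ℕ) := {t | ∃ p : Polynomial ℕ, t = fun n => p.eval n}

/-- The time bounds of the class `p₂`: `n ^ (log n) ^ O(1)`, in the form `2 ^ ((log n) ^ c + c)`. -/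
def quasiT : Set (ℕ → ℕ) := {t | ∃ c : ℕ, t = fun n => 2 ^ (Nat.log 2 n ^ c + c)}

/-- The time bounds of the class `E`: `2 ^ (c (n + 1))`. -/
def linexpT : Set (ℕ → ℕ) := {t | ∃ c : ℕ, t = fun n => 2 ^ (c * (n + 1))}

/-- The time bounds of the class `E₂`: `2 ^ p(n)`, `p` a polynomial. -/
def expT : Set (ℕ → ℕ) := {t | ∃ p : Polynomial ℕ, t = fun n => 2 ^ p.eval n}

/-- The function `F` is computed by an oracle algorithm with oracle `A` within `t(|x|)` rounds on
every input `x`, where `t` is a time bound from the class `T`. (In every round the work and the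
length of the question are polynomially bounded in the length of the input and the number of the
former rounds.) -/
def FTime (T : Set (ℕ → ℕ)) (A : Oracle) (F : List Bool → List Bool) : Prop :=
  ∃ (M : Alg) (t : ℕ → ℕ), t ∈ T ∧ ∀ x, M.run A x (t x.length) [] = some (F x)

/-- The language `L` is decided by an oracle algorithm with oracle `A` within `t(|x|)` rounds on
every input `x`, where `t` is a time bound from the class `T`. -/
def DTime (T : Set (ℕ → ℕ)) (A : Oracle) (L : Set (List Bool)) : Prop :=
  ∃ F, FTime T A F ∧ ∀ x, x ∈ L ↔ F x = [true]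

/-- The string `w` is a prefix of the characteristic sequence of the language `L` (the strings
being listed in the order `str`: by length, in dictionary order for every length). -/
def Prefix (w : List Bool) (L : Set (List Bool)) : Prop :=
  ∀ (i : ℕ) (h : i < w.length), str i ∈ L ↔ w[i] = true

/-- The string `z` codes the dyadic rational `a`: `⟨s u, v⟩` codes `± u / 2 ^ |v|`, where `u` is
read in binary (least significant bit first) and the sign is `-` if the bit `s` is `true`. -/
def Dyadic (z : List Bool) (a : ℝ) : Prop :=
  ∃ (s : Bool) (u v : List Bool), z = pairBits (s :: u) v ∧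
    a = (if s then -1 else 1) * (valB u : ℝ) / 2 ^ v.length

/-- The input `⟨1^k, ⟨1^r, w⟩⟩`. -/
def inp (k r : ℕ) (w : List Bool) : List Bool :=
  pairBits (List.replicate k true) (pairBits (List.replicate r true) w)

/-- `d` is a density function. -/
def Density (d : List Bool → ℝ) : Prop :=
  (∀ w, 0 ≤ d w) ∧ ∀ w, (d (w ++ [false]) + d (w ++ [true])) / 2 ≤ d w

/-- `F` computes the system `d` of functions: `F ⟨1^k, ⟨1^r, w⟩⟩` codes a dyadic rational which
differs from `d k w` by at most `2 ^ (-r)`. -/
def Computes (F : List Bool → List Bool) (d : ℕ → List Bool → ℝ) : Prop :=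
  ∀ k r w, ∃ a : ℝ, Dyadic (F (inp k r w)) a ∧ |a - d k w| ≤ 2⁻¹ ^ r

/-- The class `X` of languages has measure zero relative to the oracle `A`, with null covers
computable in the class of time bounds `T`: there are density functions `d 0, d 1, …`, with
`d k` of global value at most `2 ^ (-k)` and covering `X`, uniformly computable relative to `A`. -/
def MNull (T : Set (ℕ → ℕ)) (A : Oracle) (X : Set (Set (List Bool))) : Prop :=
  ∃ (d : ℕ → List Bool → ℝ) (F : List Bool → List Bool), FTime T A F ∧ Computes F d ∧
    (∀ k, Density (d k)) ∧ (∀ k, d k [] ≤ 2⁻¹ ^ k) ∧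
    ∀ k, ∀ L ∈ X, ∃ w, Prefix w L ∧ 1 ≤ d k w

/-- The number of the elements `n` of the set `T` with `2 ^ 2 ^ n ≤ N`. -/
noncomputable def cnt (T : Set ℕ) (N : ℕ) : ℕ := Set.ncard {n ∈ T | 2 ^ 2 ^ n ≤ N}

/-- `T` is infinite, and the lengths of `T` can be recognised in polynomial time: `T` is (the set of
the lengths of) an infinite tally set in `P`. -/
def Tally (T : Set ℕ) : Prop :=
  T.Infinite ∧ ∃ V : List Bool → List Bool, PolyTime V ∧ ∀ x, x.length ∈ T ↔ V x = [true]

end Pool.Agent.H752.KM
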