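import Pool.Agent.H752.KM.Stubs
import Pool.Agent.H620R2.Gauge2.Trans

/-!
# The gauge theorem on the measure of `NP` (assembly)
-/

namespace Pool.Agent.H752.KM

open Pool.Agent.NPC Pool.Agent.H620R2.Gauge MeasureTheory Filter

theorem mnull_of_predicted (hm : St_mart) (hc : St_comp) {T : Set ℕ} {A : Oracle} (hT : Tally T)
    {X : Set (Set (List Bool))} (hX : ∀ L ∈ X, Predicted T A L) : MNull polyT A X := by
  obtain ⟨m1, m2, m3, m4⟩ := hm T A hT.1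
  obtain ⟨F, hF, hF'⟩ := hc T A hT
  have hpos : ∀ k : ℕ, (0 : ℝ) < 2⁻¹ ^ k := fun k => by positivity
  refine ⟨_, F, hF, hF', fun k => ⟨fun w => mul_nonneg (hpos k).le (m2 w), fun w => ?_⟩,
    fun k => ?_, fun k L hL => ?_⟩
  · have := m3 w
    have h2 := hpos k
    have : 2⁻¹ ^ k * mart T A (w ++ [false]) + 2⁻¹ ^ k * mart T A (w ++ [true]) =
        2 * (2⁻¹ ^ k * mart T A w) := by
      rw [← mul_add, this]; ring
    linarith
  · simp [m1]
  · obtain ⟨w, hw, hR⟩ := m4 L (hX L hL) (2 ^ k)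
    refine ⟨w, hw, ?_⟩
    have h2 := mul_le_mul_of_nonneg_left hR (hpos k).le
    have h3 : (2⁻¹ : ℝ) ^ k * 2 ^ k = 1 := by
      rw [← mul_pow]; norm_num
    linarith

theorem nonnull (hcd : St_code) (hm : St_mart) (hc : St_comp) (hma : St_mass) (f : ℕ → ℝ)
    (O : Set Oracle) (hO : {A | MNull polyT A {L | IsPSPACE A L}} ⊆ O)
    (hf : ∃ T, Tally T ∧ ∃ C : ℝ, ∀ᶠ N in atTop, (cnt T N : ℝ) ≤ f N + C) : ¬ Null f O := by
  obtain ⟨T, hT, C, hf⟩ := hf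
  obtain ⟨Φ, h1, h2⟩ := hcd T
  exact hma T f C Φ O hf h1 fun B => hO (mnull_of_predicted hm hc hT fun L hL => h2 B L hL)

/-- Result 1: `NP` and p-measure, upper part -/
theorem ranO_np (hM : St_main) (hp : St_par) (hn : St_np) :
    ranO {A | MNull polyT A {L | IsNP A L}} = 0 := by
  refine hM polyT _ hp.2.2.1 fun t ht k => ?_
  obtain ⟨P, c, -, h2, h3, h4⟩ := hp.1 t ht k
  exact ⟨P, fun A => hn P A, h2, h3, h4⟩

theorem ranO_np_e (hM : St_main) (hp : St_par) (hn : St_np) (he : St_exp) :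
    ranO {A | MNull polyT A {L | IsNP A L ∧ DTime linexpT A L}} = 0 := by
  refine hM polyT _ hp.2.2.1 fun t ht k => ?_
  obtain ⟨P, c, h1, h2, h3, h4⟩ := hp.1 t ht k
  exact ⟨P, fun A => ⟨hn P A, (he P A).2 c h1⟩, h2, h3, h4⟩

theorem ranO_np_e2 (hM : St_main) (hp : St_par) (hn : St_np) (he : St_exp) :
    ranO {A | MNull quasiT A {L | IsNP A L ∧ DTime expT A L}} = 0 := by
  refine hM quasiT _ hp.2.2.2 fun t ht k => ?_
  obtain ⟨P, h2, h3, h4⟩ := hp.2.1 t ht k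
  exact ⟨P, fun A => ⟨hn P A, (he P A).1⟩, h2, h3, h4⟩

theorem null_mono {f : ℕ → ℝ} {X Y : Set Oracle} (h : X ⊆ Y) (hY : Null f Y) : Null f X :=
  fun δ hδ => let ⟨S, h1, h2⟩ := hY δ hδ
    ⟨S, fun A hA => h1 A (h hA), h2⟩

theorem pspace_sub_np (hmo : St_mono) : {A | MNull polyT A {L | IsPSPACE A L}} ⊆
    {A | MNull polyT A {L | IsNP A L}} :=
  fun A hA => (hmo A _ _ fun _ hL => IsNP.isPSPACE hL).1 hA

/-- Result 1. -/
theorem result1 (hN : St_null) (hM : St_main) (hp : St_par) (hn : St_np) (hcd : St_code)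
    (hm : St_mart) (hc : St_comp) (hma : St_mass) (f : ℕ → ℝ) (O : Set Oracle)
    (h1 : {A | MNull polyT A {L | IsPSPACE A L}} ⊆ O)
    (h2 : O ⊆ {A | MNull polyT A {L | IsNP A L}}) :
    ((∃ C : ℝ, ∃ᶠ N in atTop, f N ≤ C) → Null f O) ∧
    ((∃ T, Tally T ∧ ∃ C : ℝ, ∀ᶠ N in atTop, (cnt T N : ℝ) ≤ f N + C) → ¬ Null f O) :=
  ⟨fun hf => null_mono h2 (hN f _ hf (ranO_np hM hp hn)), nonnull hcd hm hc hma f O h1⟩

/-- Result 2. -/
theorem result2 (hN : St_null) (hM : St_main) (hp : St_par) (hn : St_np) (he : St_exp)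
    (hcd : St_code)
    (hm : St_mart) (hc : St_comp) (hma : St_mass) (f : ℕ → ℝ) (O : Set Oracle)
    (h1 : {A | MNull polyT A {L | IsPSPACE A L}} ⊆ O)
    (h2 : O ⊆ {A | MNull polyT A {L | IsNP A L ∧ DTime linexpT A L}} ∪
      {A | MNull quasiT A {L | IsNP A L ∧ DTime expT A L}}) :
    ((∃ C : ℝ, ∃ᶠ N in atTop, f N ≤ C) → Null f O) ∧
    ((∃ T, Tally T ∧ ∃ C : ℝ, ∀ᶠ N in atTop, (cnt T N : ℝ) ≤ f N + C) → ¬ Null f O) := by
  refine ⟨fun hf => null_mono h2 (hN f _ hf ?_), nonnull hcd hm hc hma f O h1⟩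
  exact measure_union_null (ranO_np_e hM hp hn he) (ranO_np_e2 hM hp hn he)

end Pool.Agent.H752.KM
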