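import Pool.Agent.H752.KM.Final
import Pool.Agent.H57R2.KM.K1
import Pool.Agent.H55R2.KM.Mart
import Pool.Agent.H418R2.KM.Comp
import Pool.Agent.H602R2.KM.Mass
import Pool.Agent.H375.KM.Par
import Pool.Agent.H896R2.KM.Game
import Pool.Agent.H431R2.KM.Resample
import Pool.Agent.H847.KM.K4a
import Pool.Agent.H131R2.KM.Cap
import Pool.Agent.H479R2.KM.Bad
import Pool.Agent.H862R2.KM.Sum
import Pool.Agent.H267.KM.K4e
import Pool.Agent.H18R2.KM.Prv
import Pool.Agent.H913.KM.NP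
import Pool.Agent.H259R2.KM.Exp
import Pool.Agent.H503R2.KM.Code

/-!
# The gauge theorem on the measure of `NP`
-/

namespace Pool.Agent.H752.KM

open Pool.Agent.NPC Pool.Agent.H620R2.Gauge MeasureTheory Filter

theorem main_holds : St_main := t_main (t_bad t_game Pool.Agent.H431R2.KM.t_resample t_local Pool.Agent.H18R2.KM.t_prv) t_sum t_cap

theorem gauge_np (f : ℕ → ℝ) (O : Set Oracle)
    (h1 : {A | MNull polyT A {L | IsPSPACE A L}} ⊆ O)
    (h2 : O ⊆ {A | MNull polyT A {L | IsNP A L}}) :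
    ((∃ C : ℝ, ∃ᶠ N in atTop, f N ≤ C) → Null f O) ∧
    ((∃ T, Tally T ∧ ∃ C : ℝ, ∀ᶠ N in atTop, (cnt T N : ℝ) ≤ f N + C) → ¬ Null f O) :=
  result1 t_null main_holds t_par t_np t_code t_mart t_comp t_mass f O h1 h2

theorem gauge_np_e (f : ℕ → ℝ) (O : Set Oracle)
    (h1 : {A | MNull polyT A {L | IsPSPACE A L}} ⊆ O)
    (h2 : O ⊆ {A | MNull polyT A {L | IsNP A L ∧ DTime linexpT A L}} ∪
      {A | MNull quasiT A {L | IsNP A L ∧ DTime expT A L}}) :
    ((∃ C : ℝ, ∃ᶠ N in atTop, f N ≤ C) → Null f O) ∧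
    ((∃ T, Tally T ∧ ∃ C : ℝ, ∀ᶠ N in atTop, (cnt T N : ℝ) ≤ f N + C) → ¬ Null f O) :=
  result2 t_null main_holds t_par t_np t_exp t_code t_mart t_comp t_mass f O h1 h2

theorem mono_holds : St_mono := t_mono

end Pool.Agent.H752.KM
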