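import Pool.Agent.H752.KM.Base

/-!
# Statements of the tasks (project KM)
-/

namespace Pool.Agent.H752.KM

open Pool.Agent.NPC Pool.Agent.H620R2.Gauge MeasureTheory Finset

/-- K1: a Lebesgue null set of oracles is null for every gauge which is infinitely often bounded. -/
def St_null : Prop := ∀ (f : ℕ → ℝ) (X : Set Oracle),
  (∃ C : ℝ, ∃ᶠ N in Filter.atTop, f N ≤ C) → ranO X = 0 → Null f X

/-- the word determined by `η`: the bit number `j` says whether one of the elements of the block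
number `j` has the value `true` -/
noncomputable def We {ι : Type} (st : ι → ℕ) (η : ι → Bool) (l : ℕ) : List Bool :=
  Wd (fun j => ∃ i, st i = j ∧ η i = true) l

/-- K2: the betting game against a sparse random environment. -/
def St_game : Prop := ∀ (ι : Type) (_ : Fintype ι) (st : ι → ℕ) (p : ι → ℝ)
    (c : (ι → Bool) → List Bool → ℝ) (Q : (ι → Bool) → List Bool → Finset ι)
    (q : ℕ → ℕ) (ρ ε : ℕ → ℝ) (κ : ℝ) (i₀ M : ℕ),
    i₀ ≤ M → (∀ i, 0 ≤ p i ∧ p i ≤ 1) → (∀ η w, 0 ≤ c η w) →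
    (∀ η η' w, (∀ i ∈ Q η w, η' i = η i) → c η' w = c η w) →
    (∀ η w, (Q η w).card ≤ q w.length) →
    (∀ l ≤ M, ∀ i, l ≤ st i → p i ≤ ρ l) →
    (∀ l, i₀ ≤ l → l < M →
      |(∏ i, if st i = l then 1 - p i else 1) - 1 / 2| ≤ ε l / 2) →
    (∀ l, 0 ≤ ρ l) → (∀ l, 0 ≤ ε l) → 0 ≤ κ →
    PrB p (fun η => (∀ l, i₀ ≤ l → l < M →
          c η (We st η l ++ [false]) + c η (We st η l ++ [true]) ≤ 2 * c η (We st η l)) ∧
        c η (We st η i₀) ≤ κ ∧ ∃ l, i₀ ≤ l ∧ l ≤ M ∧ 1 ≤ c η (We st η l)) ≤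
      κ * ∏ l ∈ Ico i₀ M, (1 + ε l) + ∑ l ∈ Icc i₀ M, ((q l : ℝ) + 2 * q (l + 1)) * ρ l

/-- K3: from the hits to the random oracle. -/
def St_resample : Prop := ∀ (P : Polynomial ℕ) (X : Finset (List Bool)) (E : Set Oracle) (β : ℝ),
    MeasurableSet E → (∀ n, 1 ≤ P.eval n) →
    (∀ (B : Oracle) (vm vp : Slot P X → ℕ → Bool), (∀ s, ¬ HitV s.m s.w (vm s)) →
      (∀ s, HitV s.m s.w (vp s)) →
      PrB (fun s : Slot P X => prv s.m s.w) (fun η => mrg B vm vp η ∈ E) ≤ β) →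
    ranO E ≤ ENNReal.ofReal β

/-- K5: the probabilities of the hits. -/
def St_prv : Prop := ∀ m : ℕ,
    (∀ w : List Bool, w.length = m → 0 ≤ prv m w ∧ prv m w ≤ 1 ∧ prv m w ≤ 2 / 2 ^ m) ∧
    |(∏ w : Fin m → Bool, (1 - prv m (List.ofFn w))) - 1 / 2| ≤ 1 / 4 ^ m

/-- the function computed by `M` within `t` rounds -/
def Fof (M : Alg) (t : ℕ → ℕ) (A : Oracle) (x : List Bool) : List Bool :=
  (M.run A x (t x.length) []).getD []

/-- K4a: an oracle algorithm depends on few questions only. -/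
def St_local : Prop := ∀ (M : Alg) (A : Oracle) (x : List Bool) (n : ℕ) (a : List Bool),
    ∃ Q : Finset (List Bool), Q.card ≤ n ∧
      ∀ A' : Oracle, (∀ y ∈ Q, A' y = A y) → M.run A' x n a = M.run A x n a

/-- K4b: rounding. -/
def St_cap : Prop := ∀ (F : List Bool → List Bool) (d : ℕ → List Bool → ℝ) (k : ℕ),
    Computes F d → Density (d k) → d k [] ≤ 2⁻¹ ^ k →
    (∀ w, cap F k (w ++ [false]) + cap F k (w ++ [true]) ≤ 2 * cap F k w) ∧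
    (∀ w, d k w ≤ cap F k w) ∧ cap F k [] ≤ 2 * 2⁻¹ ^ k ∧ ∀ w, cap F k w ≤ 2 ^ w.length * (2 * 2⁻¹ ^ k)

/-- the first `l` bits of the characteristic sequence of the test language -/
noncomputable def WA (P : Polynomial ℕ) (A : Oracle) (l : ℕ) : List Bool :=
  Wd (fun j => str j ∈ TL P A) l

/-- the event that the gambler `M` reaches the capital `1` between the times `i₀` and `L`, starting
with at most `κ` at the time `i₀`, and obeys the rules meanwhile -/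
def Bad (M : Alg) (t : ℕ → ℕ) (P : Polynomial ℕ) (k : ℕ) (κ : ℝ) (i₀ L : ℕ) : Set Oracle :=
  {A | (∀ l, i₀ ≤ l → l < L → cap (Fof M t A) k (WA P A l ++ [false]) +
        cap (Fof M t A) k (WA P A l ++ [true]) ≤ 2 * cap (Fof M t A) k (WA P A l)) ∧
      cap (Fof M t A) k (WA P A i₀) ≤ κ ∧
      ∃ l, i₀ ≤ l ∧ l ≤ L ∧ 1 ≤ cap (Fof M t A) k (WA P A l)}

/-- the length of the test language's parameter for the string number `l` -/
noncomputable def pl (P : Polynomial ℕ) (l : ℕ) : ℕ := P.eval (str l).length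

/-- K4c: the bad event is improbable. -/
def St_bad : Prop := ∀ (M : Alg) (t : ℕ → ℕ) (P : Polynomial ℕ) (k : ℕ) (κ : ℝ) (i₀ L : ℕ),
    (∀ n, 1 ≤ P.eval n) → 0 ≤ κ → i₀ ≤ L →
    ranO (Bad M t P k κ i₀ L) ≤ ENNReal.ofReal (κ * ∏ l ∈ Ico i₀ L, (1 + 2 / (4 : ℝ) ^ pl P l) +
      ∑ l ∈ Icc i₀ L, ((t (5 * l + 4 * k + 8) : ℝ) + 2 * t (5 * (l + 1) + 4 * k + 8)) *
        (2 / 2 ^ pl P l))

/-- K4d: the estimate. -/
def St_sum : Prop := ∀ (t : ℕ → ℕ) (P : Polynomial ℕ) (k n₀ L : ℕ) (κ : ℝ),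
    0 ≤ κ → 2 ^ n₀ - 1 ≤ L → (∀ n, 1 ≤ P.eval n) → (∀ n, 2 * n ≤ P.eval n) →
    (∀ n N, N ≤ 5 * 2 ^ (n + 1) + 4 * k + 8 → t N * (3 * 4 ^ n) ≤ 2 ^ P.eval n) →
    κ * ∏ l ∈ Ico (2 ^ n₀ - 1) L, (1 + 2 / (4 : ℝ) ^ pl P l) +
      ∑ l ∈ Icc (2 ^ n₀ - 1) L, ((t (5 * l + 4 * k + 8) : ℝ) + 2 * t (5 * (l + 1) + 4 * k + 8)) *
        (2 / 2 ^ pl P l) ≤ κ * Real.exp 8 + 8 / 2 ^ n₀

/-- K4e: a class which contains, for almost all oracles, test languages hard enough has positive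
measure relative to almost all oracles. -/
def St_main : Prop := ∀ (T : Set (ℕ → ℕ)) (X : Oracle → Set (Set (List Bool))), T.Countable →
    (∀ t ∈ T, ∀ k : ℕ, ∃ P : Polynomial ℕ, (∀ A, TL P A ∈ X A) ∧ (∀ n, 1 ≤ P.eval n) ∧
      (∀ n, 2 * n ≤ P.eval n) ∧
      ∀ n N, N ≤ 5 * 2 ^ (n + 1) + 4 * k + 8 → t N * (3 * 4 ^ n) ≤ 2 ^ P.eval n) →
    ranO {A | MNull T A (X A)} = 0

/-- K6: the test language is in `NP`. -/
def St_np : Prop := ∀ (P : Polynomial ℕ) (A : Oracle), IsNP A (TL P A)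

/-- K7: the test language is in exponential time. -/
def St_exp : Prop := ∀ (P : Polynomial ℕ) (A : Oracle), DTime expT A (TL P A) ∧
    ∀ c : ℕ, (∀ n, P.eval n ≤ c * (n + 1)) → DTime linexpT A (TL P A)

/-- K8: parameters. -/
def St_par : Prop := (∀ t ∈ polyT, ∀ k : ℕ, ∃ (P : Polynomial ℕ) (c : ℕ),
      (∀ n, P.eval n ≤ c * (n + 1)) ∧ (∀ n, 1 ≤ P.eval n) ∧ (∀ n, 2 * n ≤ P.eval n) ∧
      ∀ n N, N ≤ 5 * 2 ^ (n + 1) + 4 * k + 8 → t N * (3 * 4 ^ n) ≤ 2 ^ P.eval n) ∧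
    (∀ t ∈ quasiT, ∀ k : ℕ, ∃ P : Polynomial ℕ, (∀ n, 1 ≤ P.eval n) ∧ (∀ n, 2 * n ≤ P.eval n) ∧
      ∀ n N, N ≤ 5 * 2 ^ (n + 1) + 4 * k + 8 → t N * (3 * 4 ^ n) ≤ 2 ^ P.eval n) ∧
    polyT.Countable ∧ quasiT.Countable

/-- K9: the coding. -/
def St_code : Prop := ∀ T : Set ℕ, ∃ Φ : Oracle → Oracle,
    (∀ B y, (∀ n ∈ T, y ≠ uu n) → Φ B y = B y) ∧
    ∀ B L, IsPSPACE (Φ B) L → Predicted T (Φ B) L

/-- K10a: the martingale. -/
def St_mart : Prop := ∀ (T : Set ℕ) (A : Oracle), T.Infinite →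
    mart T A [] = 1 ∧ (∀ w, 0 ≤ mart T A w) ∧
    (∀ w, mart T A (w ++ [false]) + mart T A (w ++ [true]) = 2 * mart T A w) ∧
    ∀ L, Predicted T A L → ∀ R : ℝ, ∃ w, Prefix w L ∧ R ≤ mart T A w

/-- K10b: the martingale is computable. -/
def St_comp : Prop := ∀ (T : Set ℕ) (A : Oracle), Tally T →
    ∃ F, FTime polyT A F ∧ Computes F (fun k w => 2⁻¹ ^ k * mart T A w)

/-- K11: mass distribution. -/
def St_mass : Prop := ∀ (T : Set ℕ) (f : ℕ → ℝ) (C : ℝ) (Φ : Oracle → Oracle) (O : Set Oracle),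
    (∀ᶠ N in Filter.atTop, (cnt T N : ℝ) ≤ f N + C) →
    (∀ B y, (∀ n ∈ T, y ≠ uu n) → Φ B y = B y) → (∀ B, Φ B ∈ O) → ¬ Null f O

/-- K12: more time. -/
def St_mono : Prop := ∀ (A : Oracle) (X Y : Set (Set (List Bool))), X ⊆ Y →
    (MNull polyT A Y → MNull polyT A X) ∧ (MNull quasiT A Y → MNull quasiT A X) ∧
    (MNull polyT A Y → MNull quasiT A X)

end Pool.Agent.H752.KM
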